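import Pool.Agent.W968.SC.Def

/-!
# Basic facts on the sequence of states
-/

set_option autoImplicit false

namespace Pool.Agent.W968.SC

open Nat.Partrec (Code)
open Pool.Agent.Results.MP_f7ace6_lc.SharpErshov

/-! ### Lists sorted by level -/

def Srt (S : List Rec) : Prop := S.Pairwise (fun r r' => kk r' ≤ kk r)

theorem mem_geL {j : ℕ} {S : List Rec} {r : Rec} : r ∈ geL j S ↔ r ∈ S ∧ j ≤ kk r := by
  unfold geL; rw [List.mem_filter]; simp

theorem mem_eqL {j : ℕ} {S : List Rec} {r : Rec} : r ∈ eqL j S ↔ r ∈ S ∧ kk r = j := by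
  unfold eqL; rw [List.mem_filter]; simp

theorem geL_split {j : ℕ} {S : List Rec} (h : Srt S) : geL j S = geL (j + 1) S ++ eqL j S := by
  induction S with
  | nil => rfl
  | cons r S ih =>
    have h1 := List.pairwise_cons.1 h
    have ih' := ih h1.2
    unfold geL eqL at ih' ⊢
    rcases lt_trichotomy j (kk r) with h2 | h2 | h2
    · rw [List.filter_cons_of_pos (by simpa using h2.le),
        List.filter_cons_of_pos (by simpa using h2), List.filter_cons_of_neg (by simp; omega), ih']
      rfl
    · have e : S.filter (fun r => decide (j + 1 ≤ kk r)) = [] := by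
        rw [List.filter_eq_nil_iff]
        intro a ha
        have := h1.1 a ha
        simp; omega
      rw [List.filter_cons_of_pos (by simpa using h2.le),
        List.filter_cons_of_neg (by simp; omega), List.filter_cons_of_pos (by simpa using h2.symm),
        ih', e]
      rfl
    · rw [List.filter_cons_of_neg (by simpa using h2),
        List.filter_cons_of_neg (by simp; omega), List.filter_cons_of_neg (by simp; omega), ih']

theorem geL_geL {i j : ℕ} (h : i ≤ j) (S : List Rec) : geL j (geL i S) = geL j S := by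
  unfold geL
  rw [List.filter_filter]
  congr 1
  funext r
  by_cases h1 : j ≤ kk r
  · simp [h1, h.trans h1]
  · simp [h1]

theorem eqL_geL {i j : ℕ} (h : i ≤ j) (S : List Rec) : eqL j (geL i S) = eqL j S := by
  unfold geL eqL
  rw [List.filter_filter]
  congr 1
  funext r
  by_cases h1 : kk r = j
  · simp [h1, h]
  · simp [h1]

theorem geL_self {i j : ℕ} (h : j ≤ i) (S : List Rec) : geL j (geL i S) = geL i S := by
  unfold geL
  rw [List.filter_filter]
  congr 1
  funext r
  by_cases h1 : i ≤ kk r
  · simp [h1, h.trans h1]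
  · simp [h1]

theorem eqL_nil {i j : ℕ} (h : j < i) (S : List Rec) : eqL j (geL i S) = [] := by
  unfold eqL
  rw [List.filter_eq_nil_iff]
  intro a ha
  have := (mem_geL.1 ha).2
  simp; omega

theorem gp_zero (G : ℕ × ℕ) (T : List Rec) : gp G T 0 = G := by simp [gp]

theorem gp_base {G G' : ℕ × ℕ} {T : List Rec} {m : ℕ} (h : m ≠ 0) : gp G T m = gp G' T m := by
  simp [gp, h]

theorem foc_nil : foc [] = (0, 1) := by simp [foc, lasT, eqL, gp]

theorem foc_last {X : List Rec} {T : List Rec} {j : ℕ} (hT : T ≠ []) (h1 : ∀ r ∈ T, kk r = j)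
    (h2 : eqL j (X ++ T) = T) (G : ℕ × ℕ) : foc (X ++ T) = gp G T T.length := by
  have e1 : (X ++ T).getD ((X ++ T).length - 1) d0 ∈ T := by
    have hl : 0 < T.length := List.length_pos_iff.2 hT
    rw [List.length_append, List.getD_append_right _ _ _ _ (by omega)]
    rw [List.getD_eq_getElem _ _ (by omega)]
    exact List.getElem_mem _
  have e2 : lasT (X ++ T) = T := by
    unfold lasT
    rw [h1 _ e1, h2]
  unfold foc
  rw [e2]
  exact gp_base (by have := List.length_pos_iff.2 hT; omega)

theorem foc_ge {S : List Rec} (h : Srt S) (j : ℕ) :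
    foc (geL j S) = gp (foc (geL (j + 1) S)) (eqL j S) (eqL j S).length := by
  by_cases hT : eqL j S = []
  · rw [hT, List.length_nil, gp_zero, geL_split h, hT, List.append_nil]
  · rw [geL_split h]
    refine foc_last hT (fun r hr => (mem_eqL.1 hr).2) ?_ _
    rw [← geL_split h, eqL_geL le_rfl]

theorem srt_app {S : List Rec} (h : Srt S) {k : ℕ} {r : Rec} (hr : kk r = k) :
    Srt (geL k S ++ [r]) := by
  unfold Srt
  rw [List.pairwise_append]
  refine ⟨h.filter _, List.pairwise_singleton _ _, fun a ha b hb => ?_⟩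
  rw [List.mem_singleton] at hb
  rw [hb, hr]
  exact (mem_geL.1 ha).2

section

variable (n : ℕ) (g : ℕ → ℕ → ℕ → Bool)

/-- the record created at stage `s` -/
def Nw (s : ℕ) : Rec := (K n g s, A n g s, B n g s, (Gp n g s).1, (Gp n g s).2)
/-- focus gap of level `j` at stage `s` -/
def F (s j : ℕ) : ℕ × ℕ := foc (geL j (St n g s))
/-- tree of the splits of level `j` at stage `s` -/
def T (s j : ℕ) : List Rec := eqL j (St n g s)

variable {n g}

theorem St_succ (s : ℕ) : St n g (s + 1) = geL (K n g s) (St n g s) ++ [Nw n g s] := rfl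

theorem kk_Nw (s : ℕ) : kk (Nw n g s) = K n g s := rfl
theorem aa_Nw (s : ℕ) : aa (Nw n g s) = A n g s := rfl
theorem bb_Nw (s : ℕ) : bb (Nw n g s) = B n g s := rfl
theorem uu_Nw (s : ℕ) : uu (Nw n g s) = (F n g s (K n g s)).1 := rfl
theorem vv_Nw (s : ℕ) : vv (Nw n g s) = (F n g s (K n g s)).2 := rfl
theorem Gp_eq (s : ℕ) : Gp n g s = F n g s (K n g s) := rfl

theorem srt_St (s : ℕ) : Srt (St n g s) := by
  induction s with
  | zero => exact List.Pairwise.nil
  | succ s ih => rw [St_succ]; exact srt_app ih rfl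

theorem F_rec (s j : ℕ) : F n g s j = gp (F n g s (j + 1)) (T n g s j) (T n g s j).length :=
  foc_ge (srt_St s) j

theorem mem_T {s j : ℕ} {r : Rec} : r ∈ T n g s j ↔ r ∈ St n g s ∧ kk r = j := mem_eqL

theorem mem_succ {s : ℕ} {r : Rec} :
    r ∈ St n g (s + 1) ↔ (r ∈ St n g s ∧ K n g s ≤ kk r) ∨ r = Nw n g s := by
  rw [St_succ, List.mem_append, mem_geL, List.mem_singleton]

theorem geL_gt {s j : ℕ} (h : K n g s < j) : geL j (St n g (s + 1)) = geL j (St n g s) := by
  have e : geL j [Nw n g s] = [] := by
    unfold geL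
    rw [List.filter_cons_of_neg (by rw [kk_Nw]; simpa using h), List.filter_nil]
  have e2 : geL j (geL (K n g s) (St n g s) ++ [Nw n g s]) =
      geL j (geL (K n g s) (St n g s)) ++ geL j [Nw n g s] := List.filter_append ..
  rw [St_succ, e2, e, List.append_nil, geL_geL h.le]

theorem geL_le {s j : ℕ} (h : j ≤ K n g s) : geL j (St n g (s + 1)) = St n g (s + 1) := by
  have e : geL j [Nw n g s] = [Nw n g s] := by
    unfold geL
    rw [List.filter_cons_of_pos (by rw [kk_Nw]; simpa using h), List.filter_nil]
  have e2 : geL j (geL (K n g s) (St n g s) ++ [Nw n g s]) =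
      geL j (geL (K n g s) (St n g s)) ++ geL j [Nw n g s] := List.filter_append ..
  rw [St_succ, e2, e, geL_self h]

theorem T_gt {s j : ℕ} (h : K n g s < j) : T n g (s + 1) j = T n g s j := by
  have e1 := eqL_geL (le_refl j) (St n g (s + 1))
  have e2 := eqL_geL (le_refl j) (St n g s)
  unfold T
  rw [← e1, geL_gt h, e2]

theorem T_eq (s : ℕ) : T n g (s + 1) (K n g s) = T n g s (K n g s) ++ [Nw n g s] := by
  have e2 : eqL (K n g s) (geL (K n g s) (St n g s) ++ [Nw n g s]) =
      eqL (K n g s) (geL (K n g s) (St n g s)) ++ eqL (K n g s) [Nw n g s] :=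
    List.filter_append ..
  have e : eqL (K n g s) [Nw n g s] = [Nw n g s] := by
    unfold eqL
    rw [List.filter_cons_of_pos (by rw [kk_Nw]; simp), List.filter_nil]
  unfold T
  rw [St_succ, e2, e, eqL_geL le_rfl]

theorem T_lt {s j : ℕ} (h : j < K n g s) : T n g (s + 1) j = [] := by
  have e2 : eqL j (geL (K n g s) (St n g s) ++ [Nw n g s]) =
      eqL j (geL (K n g s) (St n g s)) ++ eqL j [Nw n g s] :=
    List.filter_append ..
  have e : eqL j [Nw n g s] = [] := by
    unfold eqL
    rw [List.filter_cons_of_neg (by rw [kk_Nw]; simp; omega), List.filter_nil]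
  unfold T
  rw [St_succ, e2, e, eqL_nil h]
  rfl

theorem F_gt {s j : ℕ} (h : K n g s < j) : F n g (s + 1) j = F n g s j := by
  unfold F; rw [geL_gt h]

theorem F_le {s j : ℕ} (h : j ≤ K n g s) : F n g (s + 1) j = F n g (s + 1) (K n g s) := by
  unfold F; rw [geL_le h, geL_le le_rfl]

/-- the two kinds of stages -/
theorem stage_cases (s : ℕ) :
    ((∀ r ∈ St n g s, bad n g s r = false) ∧ K n g s = 0 ∧
      ((A n g s = 2 * s + 2 ∧ B n g s = 2 * s + 3 ∧ g (2 * s + 2) (2 * s + 3) s = true) ∨
        (A n g s = 2 * s + 3 ∧ B n g s = 2 * s + 2 ∧ g (2 * s + 2) (2 * s + 3) s = false))) ∨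
    ∃ r ∈ St n g s, bad n g s r = true ∧ (∀ r' ∈ St n g s, bad n g s r' = true → kk r' ≤ kk r) ∧
      K n g s = kk r + 1 ∧ A n g s = bb r ∧ B n g s = aa r := by
  by_cases h : idx n g (St n g s) s < (St n g s).length
  · right
    have hb : bad n g s ((St n g s)[idx n g (St n g s) s]) = true :=
      List.findIdx_getElem (w := h)
    have hg : (St n g s).getD (idx n g (St n g s) s) d0 = (St n g s)[idx n g (St n g s) s] :=
      List.getD_eq_getElem _ _ h
    refine ⟨(St n g s)[idx n g (St n g s) s], List.getElem_mem _, hb, ?_, ?_, ?_, ?_⟩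
    · intro r' hr' hb'
      obtain ⟨i, hi, rfl⟩ := List.getElem_of_mem hr'
      have h1 : idx n g (St n g s) s ≤ i := by
        by_contra hc
        have := List.not_of_lt_findIdx (xs := St n g s) (p := bad n g s) (i := i) (by
          unfold idx at hc; omega)
        rw [hb'] at this
        simp at this
      rcases Nat.lt_or_ge (idx n g (St n g s) s) i with h2 | h2
      · exact List.pairwise_iff_getElem.1 (srt_St s) _ _ h hi h2
      · have h3 : i = idx n g (St n g s) s := by omega
        subst h3
        exact le_rfl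
    · show newK n g (St n g s) s = _
      unfold newK
      rw [if_pos h, hg]
    · show newA n g (St n g s) s = _
      unfold newA
      rw [if_pos h, hg]
    · show newB n g (St n g s) s = _
      unfold newB
      rw [if_pos h, hg]
  · left
    refine ⟨fun r hr => ?_, ?_, ?_⟩
    · have h1 : (St n g s).findIdx (bad n g s) = (St n g s).length := by
        have := List.findIdx_le_length (xs := St n g s) (p := bad n g s)
        unfold idx at h
        omega
      have := List.findIdx_eq_length.1 h1 r hr
      simpa using this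
    · show newK n g (St n g s) s = _
      unfold newK
      rw [if_neg h]
    · show (newA n g (St n g s) s = _ ∧ newB n g (St n g s) s = _ ∧ _) ∨
        (newA n g (St n g s) s = _ ∧ newB n g (St n g s) s = _ ∧ _)
      unfold newA newB
      rw [if_neg h, if_neg h]
      cases hg : g (2 * s + 2) (2 * s + 3) s <;> simp

theorem K_le : ∀ s, K n g s ≤ n ∧ ∀ r ∈ St n g s, kk r ≤ n := by
  intro s
  induction s with
  | zero =>
    refine ⟨?_, fun r hr => by cases hr⟩
    rcases stage_cases (n := n) (g := g) 0 with ⟨_, h, _⟩ | ⟨r, hr, _⟩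
    · omega
    · cases hr
  | succ s ih =>
    have h1 : ∀ r ∈ St n g (s + 1), kk r ≤ n := by
      intro r hr
      rcases mem_succ.1 hr with ⟨h, _⟩ | rfl
      · exact ih.2 r h
      · rw [kk_Nw]; exact ih.1
    refine ⟨?_, h1⟩
    rcases stage_cases (n := n) (g := g) (s + 1) with ⟨_, h, _⟩ | ⟨r, hr, hb, _, h, _⟩
    · omega
    · unfold bad at hb
      rw [Bool.and_eq_true] at hb
      have := of_decide_eq_true hb.1
      omega

end

end Pool.Agent.W968.SC
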