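import Pool.Agent.Results.MP_f7ace6_lc.SharpErshov

/-!
# Computably scattered posets against linear extensions with few mind changes: definitions
-/

set_option autoImplicit false

namespace Pool.Agent.W968.SC

open Nat.Partrec (Code)
open Pool.Agent.Results.MP_f7ace6_lc.SharpErshov

/-- a standard computable presentation of the rationals (with repetitions) -/
def rat (n : ℕ) : ℚ :=
  ((n.unpair.1 : ℚ) - (n.unpair.2.unpair.1 : ℚ)) / ((n.unpair.2.unpair.2 : ℚ) + 1)

/-- `R` is computably scattered: no computable copy of the rationals embeds into it -/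
def CompScattered (R : ℕ → ℕ → Prop) : Prop :=
  ¬ ∃ φ : ℚ → ℕ, Computable (fun n => φ (rat n)) ∧
    ∀ p q : ℚ, p < q → R (φ p) (φ q) ∧ φ p ≠ φ q

/-- record of a pair used to split a gap: level, smaller element, larger element, ends of the
gap -/
abbrev Rec := ℕ × ℕ × ℕ × ℕ × ℕ

def kk (r : Rec) : ℕ := r.1
def aa (r : Rec) : ℕ := r.2.1
def bb (r : Rec) : ℕ := r.2.2.1
def uu (r : Rec) : ℕ := r.2.2.2.1
def vv (r : Rec) : ℕ := r.2.2.2.2
def d0 : Rec := (0, 0, 0, 0, 0)

/-- records of level at least `j` -/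
def geL (j : ℕ) (S : List Rec) : List Rec := S.filter (fun r => decide (j ≤ kk r))
/-- records of level exactly `j` -/
def eqL (j : ℕ) (S : List Rec) : List Rec := S.filter (fun r => decide (kk r = j))

/-- gap number `m` of the tree of splits `T` with base gap `G` -/
def gp (G : ℕ × ℕ) (T : List Rec) (m : ℕ) : ℕ × ℕ :=
  if m = 0 then G
  else if (m - 1) % 2 = 0 then (uu (T.getD ((m - 1) / 2) d0), aa (T.getD ((m - 1) / 2) d0))
  else (bb (T.getD ((m - 1) / 2) d0), vv (T.getD ((m - 1) / 2) d0))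

/-- the tree of the splits of the last level -/
def lasT (S : List Rec) : List Rec := eqL (kk (S.getD (S.length - 1) d0)) S

/-- the gap which is split next -/
def foc (S : List Rec) : ℕ × ℕ := gp (0, 1) (lasT S) (lasT S).length

/-- the orientation of the record is wrong at stage `s` -/
def bad (n : ℕ) (g : ℕ → ℕ → ℕ → Bool) (s : ℕ) (r : Rec) : Bool :=
  decide (kk r < n) && !(Low.ori g s (aa r) (bb r))

/-- index of the first record with a wrong orientation -/
def idx (n : ℕ) (g : ℕ → ℕ → ℕ → Bool) (S : List Rec) (s : ℕ) : ℕ := S.findIdx (bad n g s)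

/-- level, smaller and larger element of the new record -/
def newK (n : ℕ) (g : ℕ → ℕ → ℕ → Bool) (S : List Rec) (s : ℕ) : ℕ :=
  if idx n g S s < S.length then kk (S.getD (idx n g S s) d0) + 1 else 0
def newA (n : ℕ) (g : ℕ → ℕ → ℕ → Bool) (S : List Rec) (s : ℕ) : ℕ :=
  if idx n g S s < S.length then bb (S.getD (idx n g S s) d0) else
    if g (2 * s + 2) (2 * s + 3) s = true then 2 * s + 2 else 2 * s + 3
def newB (n : ℕ) (g : ℕ → ℕ → ℕ → Bool) (S : List Rec) (s : ℕ) : ℕ :=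
  if idx n g S s < S.length then aa (S.getD (idx n g S s) d0) else
    if g (2 * s + 2) (2 * s + 3) s = true then 2 * s + 3 else 2 * s + 2
def newG (n : ℕ) (g : ℕ → ℕ → ℕ → Bool) (S : List Rec) (s : ℕ) : ℕ × ℕ :=
  foc (geL (newK n g S s) S)

def next (n : ℕ) (g : ℕ → ℕ → ℕ → Bool) (S : List Rec) (s : ℕ) : List Rec :=
  geL (newK n g S s) S ++
    [(newK n g S s, newA n g S s, newB n g S s, (newG n g S s).1, (newG n g S s).2)]

/-- the records at stage `s` -/
def St (n : ℕ) (g : ℕ → ℕ → ℕ → Bool) : ℕ → List Rec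
  | 0 => []
  | s + 1 => next n g (St n g s) s

def K (n : ℕ) (g : ℕ → ℕ → ℕ → Bool) (s : ℕ) : ℕ := newK n g (St n g s) s
def A (n : ℕ) (g : ℕ → ℕ → ℕ → Bool) (s : ℕ) : ℕ := newA n g (St n g s) s
def B (n : ℕ) (g : ℕ → ℕ → ℕ → Bool) (s : ℕ) : ℕ := newB n g (St n g s) s
def Gp (n : ℕ) (g : ℕ → ℕ → ℕ → Bool) (s : ℕ) : ℕ × ℕ := newG n g (St n g s) s

/-- the two elements `2 s + 2` and `2 s + 3` are inserted into the gap `Gp s` -/
def lo (n : ℕ) (g : ℕ → ℕ → ℕ → Bool) (v : ℕ) : ℕ :=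
  if v < 2 then 0 else (Gp n g ((v - 2) / 2)).1
def hi (n : ℕ) (g : ℕ → ℕ → ℕ → Bool) (v : ℕ) : ℕ :=
  if v < 2 then 1 else (Gp n g ((v - 2) / 2)).2

/-- the order -/
def Le (n : ℕ) (g : ℕ → ℕ → ℕ → Bool) (x y : ℕ) : Bool := Low.le (lo n g) (hi n g) x y

end Pool.Agent.W968.SC
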