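import Pool.Agent.W968.SC.Inv

/-!
# The final level, one-sidedness of the elements, correctness of the final pairs
-/

set_option autoImplicit false

namespace Pool.Agent.W968.SC

open Nat.Partrec (Code)
open Pool.Agent.Results.MP_f7ace6_lc.SharpErshov

/-- `k` is the largest level occurring infinitely often, and from stage `s₁` on no larger one
occurs -/
structure Stab (n : ℕ) (g : ℕ → ℕ → ℕ → Bool) (k s₁ : ℕ) : Prop where
  le : ∀ t, s₁ ≤ t → K n g t ≤ k
  inf : ∀ m, ∃ t, m ≤ t ∧ K n g t = k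

theorem exists_stab (n : ℕ) (g : ℕ → ℕ → ℕ → Bool) : ∃ k s₁, Stab n g k s₁ := by
  classical
  have h0 : ∃ k, k ≤ n ∧ ∀ m, ∃ t, m ≤ t ∧ K n g t = k := by
    by_contra hc
    push Not at hc
    have h1 : ∀ k, ∃ m, k ≤ n → ∀ t, m ≤ t → K n g t ≠ k := by
      intro k
      by_cases hk : k ≤ n
      · obtain ⟨m, hm⟩ := hc k hk
        exact ⟨m, fun _ => hm⟩
      · exact ⟨0, fun h => absurd h hk⟩
    choose m hm using h1
    have h2 := (K_le (n := n) (g := g) ((Finset.range (n + 1)).sup m)).1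
    refine hm _ h2 _ (Finset.le_sup (f := m) (Finset.mem_range.2 (Nat.lt_succ_of_le h2))) rfl
  obtain ⟨k0, hk0, hi0⟩ := h0
  set k := Nat.findGreatest (fun k => ∀ m, ∃ t, m ≤ t ∧ K n g t = k) n with hk
  have hsp : ∀ m, ∃ t, m ≤ t ∧ K n g t = k :=
    Nat.findGreatest_spec (P := fun k => ∀ m, ∃ t, m ≤ t ∧ K n g t = k) hk0 hi0
  have h1 : ∀ j, ∃ m, k < j → j ≤ n → ∀ t, m ≤ t → K n g t ≠ j := by
    intro j
    by_cases hj : k < j ∧ j ≤ n
    · have := Nat.findGreatest_is_greatest (P := fun k => ∀ m, ∃ t, m ≤ t ∧ K n g t = k) hj.1 hj.2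
      push Not at this
      obtain ⟨m, hm⟩ := this
      exact ⟨m, fun _ _ => hm⟩
    · exact ⟨0, fun a b => absurd ⟨a, b⟩ hj⟩
  choose m hm using h1
  refine ⟨k, (Finset.range (n + 1)).sup m, fun t ht => ?_, hsp⟩
  by_contra hc
  have hle := (K_le (n := n) (g := g) t).1
  exact hm (K n g t) (by omega) hle t
    ((Finset.le_sup (f := m) (Finset.mem_range.2 (Nat.lt_succ_of_le hle))).trans ht) rfl

section

variable {n : ℕ} {g : ℕ → ℕ → ℕ → Bool}

/-! ### One-sidedness -/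

/-- new elements and lower ends of the open gaps -/
def Lw (n : ℕ) (g : ℕ → ℕ → ℕ → Bool) (k s x : ℕ) : Prop :=
  2 * s + 2 ≤ x ∨ ∃ G, Op n g s k G ∧ x = G.1
/-- new elements and upper ends of the open gaps -/
def Uw (n : ℕ) (g : ℕ → ℕ → ℕ → Bool) (k s x : ℕ) : Prop :=
  2 * s + 2 ≤ x ∨ ∃ G, Op n g s k G ∧ x = G.2

theorem ends {k s₁ s₀ : ℕ} (hS : Stab n g k s₁) (h1 : s₁ ≤ s₀) (hK : K n g s₀ = k) :
    ∀ t, s₀ + 1 ≤ t →
      (∀ r ∈ St n g t, kk r < k → 2 * (s₀ + 1) + 2 ≤ aa r ∧ 2 * (s₀ + 1) + 2 ≤ bb r ∧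
        Lw n g k (s₀ + 1) (uu r) ∧ Uw n g k (s₀ + 1) (vv r)) ∧
      (∀ G, Op n g t k G → Lw n g k (s₀ + 1) G.1 ∧ Uw n g k (s₀ + 1) G.2) ∧
      Lw n g k (s₀ + 1) (F n g t (K n g t)).1 ∧ Uw n g k (s₀ + 1) (F n g t (K n g t)).2 := by
  -- the third part follows from the first two
  have key : ∀ t, s₀ + 1 ≤ t →
      ((∀ r ∈ St n g t, kk r < k → 2 * (s₀ + 1) + 2 ≤ aa r ∧ 2 * (s₀ + 1) + 2 ≤ bb r ∧
        Lw n g k (s₀ + 1) (uu r) ∧ Uw n g k (s₀ + 1) (vv r)) ∧
      (∀ G, Op n g t k G → Lw n g k (s₀ + 1) G.1 ∧ Uw n g k (s₀ + 1) G.2)) →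
      Lw n g k (s₀ + 1) (F n g t (K n g t)).1 ∧ Uw n g k (s₀ + 1) (F n g t (K n g t)).2 := by
    rintro t ht ⟨c1, c2⟩
    have hle := hS.le t (by omega)
    rcases F_chain (n := n) (g := g) (s := t) hle with e | ⟨r, hr, _, h2, e⟩
    · rw [e]; exact c2 _ (Op_F t k)
    · obtain ⟨a, b, c, d⟩ := c1 r hr h2
      rcases e with e | e
      · rw [e]; exact ⟨c, Or.inl a⟩
      · rw [e]; exact ⟨Or.inl b, d⟩
  intro t ht
  induction t, ht using Nat.le_induction with
  | base =>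
    have c1 : ∀ r ∈ St n g (s₀ + 1), kk r < k → 2 * (s₀ + 1) + 2 ≤ aa r ∧
        2 * (s₀ + 1) + 2 ≤ bb r ∧ Lw n g k (s₀ + 1) (uu r) ∧ Uw n g k (s₀ + 1) (vv r) := by
      intro r hr hk
      rcases mem_succ.1 hr with ⟨_, h⟩ | rfl
      · omega
      · rw [kk_Nw] at hk; omega
    have c2 : ∀ G, Op n g (s₀ + 1) k G → Lw n g k (s₀ + 1) G.1 ∧ Uw n g k (s₀ + 1) G.2 :=
      fun G hG => ⟨Or.inr ⟨G, hG, rfl⟩, Or.inr ⟨G, hG, rfl⟩⟩
    exact ⟨c1, c2, key _ le_rfl ⟨c1, c2⟩⟩
  | succ t ht ih =>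
    obtain ⟨c1, c2, c3, c4⟩ := ih
    have hle := hS.le t (by omega)
    have hAB : 2 * (s₀ + 1) + 2 ≤ A n g t ∧ 2 * (s₀ + 1) + 2 ≤ B n g t := by
      rcases stage_cases (n := n) (g := g) t with ⟨_, _, ⟨a, b, _⟩ | ⟨a, b, _⟩⟩ |
        ⟨r, hr, _, _, hk, a, b⟩
      · omega
      · omega
      · obtain ⟨a', b', _⟩ := c1 r hr (by omega)
        omega
    have d1 : ∀ r ∈ St n g (t + 1), kk r < k → 2 * (s₀ + 1) + 2 ≤ aa r ∧
        2 * (s₀ + 1) + 2 ≤ bb r ∧ Lw n g k (s₀ + 1) (uu r) ∧ Uw n g k (s₀ + 1) (vv r) := by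
      intro r hr hk
      rcases mem_succ.1 hr with ⟨h, _⟩ | rfl
      · exact c1 r h hk
      · rw [aa_Nw, bb_Nw, uu_Nw, vv_Nw]
        exact ⟨hAB.1, hAB.2, c3, c4⟩
    have d2 : ∀ G, Op n g (t + 1) k G → Lw n g k (s₀ + 1) G.1 ∧ Uw n g k (s₀ + 1) G.2 := by
      intro G hG
      rcases Nat.lt_or_ge (K n g t) k with h | h
      · exact c2 G ((Op_gt h).1 hG)
      · obtain rfl : K n g t = k := by omega
        rcases Op_eq hG with h | rfl | rfl
        · exact c2 G h
        · exact ⟨c3, Or.inl hAB.1⟩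
        · exact ⟨Or.inl hAB.2, c4⟩
    exact ⟨d1, d2, key _ (by omega) ⟨d1, d2⟩⟩

theorem below_new {k s₁ s₀ : ℕ} (hS : Stab n g k s₁) (h1 : s₁ ≤ s₀) (hK : K n g s₀ = k)
    {z : ℕ} (hz : z < 2 * (s₀ + 1) + 2) : ∀ x, 2 * (s₀ + 1) + 2 ≤ x → Q n g z x →
      ∃ G, Op n g (s₀ + 1) k G ∧ Q n g z G.1 := by
  intro x
  induction x using Nat.strong_induction_on with
  | _ x ih =>
    intro hx hq
    have hlo := lo_new (n := n) (g := g) (s := (x - 2) / 2) (x := x) (by omega) (by omega)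
    rw [Q_down (by omega)] at hq
    have hl := dec.lo_lt (lo := lo n g) (hi := hi n g) x (by omega)
    obtain ⟨_, _, c3, _⟩ := ends hS h1 hK ((x - 2) / 2) (by omega)
    rw [← hlo] at c3
    rcases c3 with c | ⟨G, hG, e⟩
    · exact ih _ hl c hq
    · exact ⟨G, hG, by rw [← e]; exact hq⟩

theorem above_new {k s₁ s₀ : ℕ} (hS : Stab n g k s₁) (h1 : s₁ ≤ s₀) (hK : K n g s₀ = k)
    {z : ℕ} (hz : z < 2 * (s₀ + 1) + 2) : ∀ x, 2 * (s₀ + 1) + 2 ≤ x → Q n g x z →
      ∃ G, Op n g (s₀ + 1) k G ∧ Q n g G.2 z := by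
  intro x
  induction x using Nat.strong_induction_on with
  | _ x ih =>
    intro hx hq
    have hlo := hi_new (n := n) (g := g) (s := (x - 2) / 2) (x := x) (by omega) (by omega)
    rw [Q_up (by omega) (by omega)] at hq
    have hl := dec.hi_lt (lo := lo n g) (hi := hi n g) x (by omega)
    obtain ⟨_, _, _, c3⟩ := ends hS h1 hK ((x - 2) / 2) (by omega)
    rw [← hlo] at c3
    rcases c3 with c | ⟨G, hG, e⟩
    · exact ih _ hl c hq
    · exact ⟨G, hG, by rw [← e]; exact hq⟩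

/-- every element has finitely many successors or finitely many predecessors -/
theorem one_sided (z : ℕ) : {x | Q n g z x}.Finite ∨ {x | Q n g x z}.Finite := by
  obtain ⟨k, s₁, hS⟩ := exists_stab n g
  obtain ⟨s₀, hs₀, hK⟩ := hS.inf (max s₁ z)
  have h1 : s₁ ≤ s₀ := (le_max_left _ _).trans hs₀
  have hz : z < 2 * (s₀ + 1) + 2 := by
    have := (le_max_right s₁ z).trans hs₀
    omega
  by_cases ha : ∃ x, 2 * (s₀ + 1) + 2 ≤ x ∧ Q n g z x
  · right
    obtain ⟨x, hx, hq⟩ := ha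
    obtain ⟨G, hG, hzG⟩ := below_new hS h1 hK hz x hx hq
    refine (Set.finite_lt_nat (2 * (s₀ + 1) + 2)).subset fun y hy => ?_
    by_contra hc
    obtain ⟨G', hG', hGz⟩ := above_new hS h1 hK hz y (by simpa using hc) hy
    exact (inv (s₀ + 1)).O k G' G hG' hG (Q_trans hGz hzG)
  · left
    push Not at ha
    refine (Set.finite_lt_nat (2 * (s₀ + 1) + 2)).subset fun y hy => ?_
    by_contra hc
    exact ha y (by simpa using hc) hy

/-! ### Correctness of the final pairs -/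

theorem count_inv : ∀ s, ∀ r ∈ St n g s, ∃ c < s,
    kk r ≤ Low.chg g (min (aa r) (bb r)) (max (aa r) (bb r)) c ∧
      Low.ori g c (aa r) (bb r) = true := by
  intro s
  induction s with
  | zero => intro r hr; cases hr
  | succ s ih =>
    intro r hr
    rcases mem_succ.1 hr with ⟨h, _⟩ | rfl
    · obtain ⟨c, h1, h2⟩ := ih r h
      exact ⟨c, by omega, h2⟩
    · refine ⟨s, Nat.lt_succ_self s, ?_⟩
      rw [kk_Nw, aa_Nw, bb_Nw]
      rcases stage_cases (n := n) (g := g) s with ⟨_, hk, ⟨a, b, c⟩ | ⟨a, b, c⟩⟩ |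
        ⟨r, hr, hb, _, hk, a, b⟩
      · refine ⟨by omega, ?_⟩
        rw [a, b]; unfold Low.ori; rw [if_pos (by omega)]; exact c
      · refine ⟨by omega, ?_⟩
        rw [a, b]; unfold Low.ori; rw [if_neg (by omega), c]; rfl
      · obtain ⟨c, h1, h2, h3⟩ := ih r hr
        obtain ⟨_, _, _, _, hne⟩ := (bds s).1 r hr
        have h4 : Low.ori g s (aa r) (bb r) = false := by
          unfold bad at hb
          rw [Bool.and_eq_true] at hb
          simpa using hb.2
        rw [a, b, hk]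
        refine ⟨?_, ?_⟩
        · rw [min_comm, max_comm]
          refine le_trans (Nat.succ_le_succ h2) (Low.chg_lt h1.le ?_)
          intro hc
          rw [Low.ori_minmax] at h3 h4
          rw [hc, h4] at h3
          cases h3
        · rw [Low.ori_swap hne, h4]; rfl

theorem stays {k s₁ s : ℕ} (hS : Stab n g k s₁) (hs : s₁ ≤ s) {r : Rec} (hr : r ∈ St n g s)
    (hk : kk r = k) : ∀ s', s ≤ s' → r ∈ St n g s' := by
  intro s' hs'
  induction s', hs' using Nat.le_induction with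
  | base => exact hr
  | succ s' hs' ih =>
    exact mem_succ.2 (Or.inl ⟨ih, by rw [hk]; exact hS.le s' (by omega)⟩)

theorem ori_final {k s₁ s : ℕ} (hS : Stab n g k s₁)
    (hch : ∀ x y, {s | g x y (s + 1) ≠ g x y s}.encard ≤ n) (hs : s₁ ≤ s) {r : Rec}
    (hr : r ∈ St n g s) (hk : kk r = k) :
    ∀ s', s ≤ s' → Low.ori g s' (aa r) (bb r) = true := by
  intro s' hs'
  by_contra hc
  have hc' : Low.ori g s' (aa r) (bb r) = false := by simpa using hc
  rcases Nat.lt_or_ge (kk r) n with hkn | hkn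
  · have hb : bad n g s' r = true := by
      unfold bad
      rw [hc', decide_eq_true hkn]; rfl
    have hr' := stays hS hs hr hk s' hs'
    have hle := hS.le s' (by omega)
    rcases stage_cases (n := n) (g := g) s' with ⟨h, _⟩ | ⟨r', _, _, hmax, hK, _⟩
    · rw [h r hr'] at hb; cases hb
    · have := hmax r hr' hb
      omega
  · obtain ⟨c, c1, c2, c3⟩ := count_inv s r hr
    have hne : g (min (aa r) (bb r)) (max (aa r) (bb r)) c ≠
        g (min (aa r) (bb r)) (max (aa r) (bb r)) s' := by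
      intro he
      rw [Low.ori_minmax] at c3 hc
      rw [he] at c3
      exact hc c3
    have h2 := Low.chg_lt (show c ≤ s' by omega) hne
    have h3 := Low.chg_le (hch (min (aa r) (bb r)) (max (aa r) (bb r))) s'
    omega

theorem lim_pair {L : ℕ → ℕ → Prop} (htot : ∀ x y, L x y ∨ L y x)
    (hlim : ∀ x y, ∃ s₀, ∀ s ≥ s₀, (g x y s = true ↔ L x y)) {a b : ℕ}
    (h : ∃ s₀, ∀ s' ≥ s₀, Low.ori g s' a b = true) : L a b := by
  obtain ⟨s₀, hs₀⟩ := h
  by_cases hab : a < b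
  · obtain ⟨s₂, hs₂⟩ := hlim a b
    have h1 := hs₀ (max s₀ s₂) (le_max_left _ _)
    have h2 := hs₂ (max s₀ s₂) (le_max_right _ _)
    unfold Low.ori at h1
    rw [if_pos hab] at h1
    exact h2.1 h1
  · obtain ⟨s₂, hs₂⟩ := hlim b a
    have h1 := hs₀ (max s₀ s₂) (le_max_left _ _)
    have h2 := hs₂ (max s₀ s₂) (le_max_right _ _)
    unfold Low.ori at h1
    rw [if_neg hab] at h1
    have h3 : ¬ L b a := by
      intro hc
      rw [h2.2 hc] at h1
      cases h1
    exact (htot a b).resolve_right h3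

/-! ### The tree of splits -/

theorem tree (s j : ℕ) : ∀ i < (T n g s j).length,
    (uu ((T n g s j).getD i d0), vv ((T n g s j).getD i d0)) =
      gp (F n g s (j + 1)) (T n g s j) i := by
  induction s with
  | zero => intro i hi; exact absurd hi (by show ¬ i < 0; omega)
  | succ s ih =>
    intro i hi
    rcases lt_trichotomy j (K n g s) with h | h | h
    · rw [T_lt h] at hi; exact absurd hi (by simp)
    · subst h
      rw [T_eq, List.length_append, List.length_singleton] at hi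
      rw [T_eq, F_gt (Nat.lt_succ_self _), gp_app_lt (by omega)]
      rcases Nat.lt_or_ge i (T n g s (K n g s)).length with h1 | h1
      · rw [List.getD_append _ _ _ _ h1]
        exact ih i h1
      · obtain rfl : i = (T n g s (K n g s)).length := by omega
        rw [List.getD_append_right _ _ _ _ le_rfl, ← F_rec]
        simp [uu_Nw, vv_Nw]
    · rw [T_gt h] at hi ⊢
      rw [F_gt (by omega)]
      exact ih i hi

theorem T_stable {k s₁ s : ℕ} (hS : Stab n g k s₁) (hs : s₁ ≤ s) {i : ℕ}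
    (hi : i < (T n g s k).length) : ∀ s', s ≤ s' → i < (T n g s' k).length ∧
      (T n g s' k).getD i d0 = (T n g s k).getD i d0 := by
  intro s' hs'
  induction s', hs' using Nat.le_induction with
  | base => exact ⟨hi, rfl⟩
  | succ s' hs' ih =>
    rcases Nat.lt_or_ge (K n g s') k with h | h
    · rw [T_gt h]; exact ih
    · have hle := hS.le s' (by omega)
      obtain rfl : K n g s' = k := by omega
      rw [T_eq, List.getD_append _ _ _ _ ih.1, List.length_append]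
      exact ⟨by omega, ih.2⟩

theorem T_unbdd {k s₁ : ℕ} (hS : Stab n g k s₁) (m : ℕ) :
    ∃ s, s₁ ≤ s ∧ m < (T n g s k).length := by
  induction m with
  | zero =>
    obtain ⟨t, ht, hK⟩ := hS.inf s₁
    refine ⟨t + 1, by omega, ?_⟩
    subst hK
    rw [T_eq, List.length_append, List.length_singleton]; omega
  | succ m ih =>
    obtain ⟨s, hs, hm⟩ := ih
    obtain ⟨t, ht, hK⟩ := hS.inf s
    refine ⟨t + 1, by omega, ?_⟩
    have := (T_stable hS hs hm t ht).1
    subst hK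
    rw [T_eq, List.length_append, List.length_singleton]; omega

theorem F_const {k s₁ : ℕ} (hS : Stab n g k s₁) {s : ℕ} (hs : s₁ ≤ s) :
    F n g s (k + 1) = F n g s₁ (k + 1) := by
  induction s, hs using Nat.le_induction with
  | base => rfl
  | succ s hs ih =>
    rw [F_gt (by have := hS.le s hs; omega), ih]

end

end Pool.Agent.W968.SC
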