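import Pool.Agent.W968.SC.Bas

/-!
# Invariants of the construction
-/

set_option autoImplicit false

namespace Pool.Agent.W968.SC

open Nat.Partrec (Code)
open Pool.Agent.Results.MP_f7ace6_lc.SharpErshov

theorem gp_cases {G : ℕ × ℕ} {T : List Rec} {m : ℕ} (h0 : m ≠ 0) (h : m ≤ 2 * T.length) :
    ∃ r ∈ T, gp G T m = (uu r, aa r) ∨ gp G T m = (bb r, vv r) := by
  have hlt : (m - 1) / 2 < T.length := by omega
  refine ⟨T[(m - 1) / 2], List.getElem_mem _, ?_⟩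
  unfold gp
  rw [if_neg h0, List.getD_eq_getElem _ _ hlt]
  by_cases h1 : (m - 1) % 2 = 0
  · left; rw [if_pos h1]
  · right; rw [if_neg h1]

variable {n : ℕ} {g : ℕ → ℕ → ℕ → Bool}

theorem F_chain {s i j : ℕ} (h : i ≤ j) : F n g s i = F n g s j ∨
    ∃ r ∈ St n g s, i ≤ kk r ∧ kk r < j ∧
      (F n g s i = (uu r, aa r) ∨ F n g s i = (bb r, vv r)) := by
  obtain ⟨d, rfl⟩ := Nat.exists_eq_add_of_le h
  clear h
  induction d generalizing i with
  | zero => left; rfl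
  | succ d ih =>
    by_cases hT : T n g s i = []
    · have e : F n g s i = F n g s (i + 1) := by rw [F_rec, hT, List.length_nil, gp_zero]
      rcases ih (i := i + 1) with h | ⟨r, hr, h1, h2, h3⟩
      · left; rw [e, h]; congr 1; omega
      · right; exact ⟨r, hr, by omega, by omega, by rw [e]; exact h3⟩
    · right
      have hl : 0 < (T n g s i).length := List.length_pos_iff.2 hT
      obtain ⟨r, hr, h1⟩ := gp_cases (G := F n g s (i + 1)) (T := T n g s i)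
        (m := (T n g s i).length) (by omega) (by omega)
      have := mem_T.1 hr
      exact ⟨r, this.1, this.2.ge, by omega, by rw [F_rec]; exact h1⟩

theorem F_top {s j : ℕ} (h : n < j) : F n g s j = (0, 1) := by
  have : geL j (St n g s) = [] := by
    unfold geL
    rw [List.filter_eq_nil_iff]
    intro a ha
    have := (K_le (n := n) (g := g) s).2 a ha
    simp; omega
  unfold F
  rw [this, foc_nil]

theorem F_cases (s j : ℕ) : F n g s j = (0, 1) ∨
    ∃ r ∈ St n g s, F n g s j = (uu r, aa r) ∨ F n g s j = (bb r, vv r) := by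
  rcases F_chain (n := n) (g := g) (s := s) (i := j) (j := max j (n + 1)) (le_max_left _ _) with
    h | ⟨r, hr, _, _, h⟩
  · left; rw [h, F_top (lt_of_lt_of_le (Nat.lt_succ_self n) (le_max_right _ _))]
  · right; exact ⟨r, hr, h⟩

/-- all numbers in the records and gaps are old -/
theorem bds : ∀ s, (∀ r ∈ St n g s, aa r < 2 * s + 2 ∧ bb r < 2 * s + 2 ∧ uu r < 2 * s + 2 ∧
      vv r < 2 * s + 2 ∧ aa r ≠ bb r) ∧
    ∀ j, (F n g s j).1 < 2 * s + 2 ∧ (F n g s j).2 < 2 * s + 2 := by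
  intro s
  have key : ∀ s, (∀ r ∈ St n g s, aa r < 2 * s + 2 ∧ bb r < 2 * s + 2 ∧ uu r < 2 * s + 2 ∧
      vv r < 2 * s + 2 ∧ aa r ≠ bb r) → ∀ j, (F n g s j).1 < 2 * s + 2 ∧
        (F n g s j).2 < 2 * s + 2 := by
    intro s h j
    rcases F_cases (n := n) (g := g) s j with e | ⟨r, hr, e | e⟩
    · rw [e]; exact ⟨by simp, by simp⟩
    · obtain ⟨a, b, c, d, _⟩ := h r hr
      rw [e]; exact ⟨c, a⟩
    · obtain ⟨a, b, c, d, _⟩ := h r hr
      rw [e]; exact ⟨b, d⟩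
  induction s with
  | zero =>
    have : ∀ r ∈ St n g 0, aa r < 2 * 0 + 2 ∧ bb r < 2 * 0 + 2 ∧ uu r < 2 * 0 + 2 ∧
      vv r < 2 * 0 + 2 ∧ aa r ≠ bb r := fun r hr => by cases hr
    exact ⟨this, key 0 this⟩
  | succ s ih =>
    have : ∀ r ∈ St n g (s + 1), aa r < 2 * (s + 1) + 2 ∧ bb r < 2 * (s + 1) + 2 ∧
        uu r < 2 * (s + 1) + 2 ∧ vv r < 2 * (s + 1) + 2 ∧ aa r ≠ bb r := by
      intro r hr
      rcases mem_succ.1 hr with ⟨h, _⟩ | rfl
      · obtain ⟨a, b, c, d, e⟩ := ih.1 r h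
        exact ⟨by omega, by omega, by omega, by omega, e⟩
      · have hF := ih.2 (K n g s)
        rw [aa_Nw, bb_Nw, uu_Nw, vv_Nw]
        rcases stage_cases (n := n) (g := g) s with ⟨_, _, ⟨a, b, _⟩ | ⟨a, b, _⟩⟩ |
          ⟨r, hr, _, _, _, a, b⟩
        · exact ⟨by omega, by omega, by omega, by omega, by omega⟩
        · exact ⟨by omega, by omega, by omega, by omega, by omega⟩
        · obtain ⟨a', b', c', d', e'⟩ := ih.1 r hr
          exact ⟨by omega, by omega, by omega, by omega, by rw [a, b]; exact e'.symm⟩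
    exact ⟨this, key (s + 1) this⟩

theorem dec : Low.Dec (lo n g) (hi n g) := by
  have h := fun s => (bds (n := n) (g := g) s).2 (K n g s)
  constructor
  · intro v hv
    unfold lo
    by_cases h1 : v < 2
    · rw [if_pos h1]; omega
    · rw [if_neg h1, Gp_eq]
      have := (h ((v - 2) / 2)).1
      omega
  · intro v hv
    unfold hi
    rw [if_neg (by omega), Gp_eq]
    have := (h ((v - 2) / 2)).2
    omega

theorem lo_new {s x : ℕ} (h1 : 2 * s + 2 ≤ x) (h2 : x < 2 * s + 4) :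
    lo n g x = (F n g s (K n g s)).1 := by
  unfold lo
  rw [if_neg (by omega), show (x - 2) / 2 = s by omega, Gp_eq]

theorem hi_new {s x : ℕ} (h1 : 2 * s + 2 ≤ x) (h2 : x < 2 * s + 4) :
    hi n g x = (F n g s (K n g s)).2 := by
  unfold hi
  rw [if_neg (by omega), show (x - 2) / 2 = s by omega, Gp_eq]

variable (n g) in
/-- the order as a proposition -/
def Q (x y : ℕ) : Prop := Le n g x y = true

theorem Q_refl (x : ℕ) : Q n g x x := Low.le_self _ _ x
theorem Q_zero (x : ℕ) : Q n g 0 x := Low.le_bot dec x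
theorem Q_one (x : ℕ) : Q n g x 1 := Low.le_top dec x
theorem not_Q_one : ¬ Q n g 1 0 := by
  unfold Q Le
  rw [Low.le_one_zero]
  simp

theorem Q_down {x y : ℕ} (h : x < y) : Q n g x y ↔ Q n g x (lo n g y) := by
  unfold Q Le
  rw [Low.le_down dec h]

theorem Q_up {x y : ℕ} (h : y < x) (h2 : 2 ≤ x) : Q n g x y ↔ Q n g (hi n g x) y := by
  unfold Q Le
  rw [Low.le_up dec h h2]

/-- open gaps of level `j` -/
def Op (n : ℕ) (g : ℕ → ℕ → ℕ → Bool) (s j : ℕ) (G : ℕ × ℕ) : Prop :=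
  ∃ m, (T n g s j).length ≤ m ∧ m ≤ 2 * (T n g s j).length ∧
    G = gp (F n g s (j + 1)) (T n g s j) m

theorem Op_F (s j : ℕ) : Op n g s j (F n g s j) :=
  ⟨_, le_rfl, by omega, F_rec s j⟩

theorem Op_bd {s j : ℕ} {G : ℕ × ℕ} (h : Op n g s j G) : G.1 < 2 * s + 2 ∧ G.2 < 2 * s + 2 := by
  obtain ⟨m, h1, h2, rfl⟩ := h
  by_cases h0 : m = 0
  · rw [h0, gp_zero]; exact (bds s).2 _
  · obtain ⟨r, hr, e | e⟩ := gp_cases (G := F n g s (j + 1)) h0 h2
    · obtain ⟨a, b, c, d, _⟩ := (bds s).1 r (mem_T.1 hr).1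
      rw [e]; exact ⟨c, a⟩
    · obtain ⟨a, b, c, d, _⟩ := (bds s).1 r (mem_T.1 hr).1
      rw [e]; exact ⟨b, d⟩

theorem Op_gt {s j : ℕ} {G : ℕ × ℕ} (h : K n g s < j) : Op n g (s + 1) j G ↔ Op n g s j G := by
  unfold Op
  rw [T_gt h, F_gt (show K n g s < j + 1 by omega)]

theorem Op_lt {s j : ℕ} {G : ℕ × ℕ} (h : j < K n g s) (hG : Op n g (s + 1) j G) :
    G = F n g (s + 1) (K n g s) := by
  obtain ⟨m, h1, h2, rfl⟩ := hG
  rw [T_lt h] at h2
  rw [T_lt h]
  obtain rfl : m = 0 := by simpa using h2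
  rw [gp_zero, F_le (by omega)]

theorem gp_app_lt {G : ℕ × ℕ} {X : List Rec} {r : Rec} {m : ℕ} (h : m ≤ 2 * X.length) :
    gp G (X ++ [r]) m = gp G X m := by
  unfold gp
  by_cases h0 : m = 0
  · rw [if_pos h0, if_pos h0]
  · rw [if_neg h0, if_neg h0, List.getD_append _ _ _ _ (by omega)]

theorem gp_app_odd {G : ℕ × ℕ} {X : List Rec} {r : Rec} :
    gp G (X ++ [r]) (2 * X.length + 1) = (uu r, aa r) := by
  unfold gp
  rw [if_neg (by omega), if_pos (by omega)]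
  have : (2 * X.length + 1 - 1) / 2 = X.length := by omega
  rw [this, List.getD_append_right _ _ _ _ le_rfl]
  simp

theorem gp_app_even {G : ℕ × ℕ} {X : List Rec} {r : Rec} :
    gp G (X ++ [r]) (2 * X.length + 2) = (bb r, vv r) := by
  unfold gp
  rw [if_neg (by omega), if_neg (by omega)]
  have : (2 * X.length + 2 - 1) / 2 = X.length := by omega
  rw [this, List.getD_append_right _ _ _ _ le_rfl]
  simp

theorem Op_eq {s : ℕ} {G : ℕ × ℕ} (hG : Op n g (s + 1) (K n g s) G) :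
    Op n g s (K n g s) G ∨ G = ((F n g s (K n g s)).1, A n g s) ∨
      G = (B n g s, (F n g s (K n g s)).2) := by
  obtain ⟨m, h1, h2, rfl⟩ := hG
  rw [T_eq, List.length_append, List.length_singleton] at h1 h2
  rw [T_eq, F_gt (Nat.lt_succ_self _)]
  rcases Nat.lt_or_ge (2 * (T n g s (K n g s)).length) m with h3 | h3
  · rcases Nat.lt_or_ge (2 * (T n g s (K n g s)).length + 1) m with h4 | h4
    · right; right
      rw [show m = 2 * (T n g s (K n g s)).length + 2 by omega, gp_app_even]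
      rfl
    · right; left
      rw [show m = 2 * (T n g s (K n g s)).length + 1 by omega, gp_app_odd]
      rfl
  · left
    exact ⟨m, by omega, h3, gp_app_lt h3⟩

structure Inv (n : ℕ) (g : ℕ → ℕ → ℕ → Bool) (s : ℕ) : Prop where
  val : Low.Val (lo n g) (hi n g) (2 * s + 2)
  R : ∀ r ∈ St n g s, Q n g (uu r) (aa r) ∧ Q n g (uu r) (bb r) ∧ Q n g (aa r) (vv r) ∧
    Q n g (bb r) (vv r) ∧ ¬ Q n g (aa r) (bb r) ∧ ¬ Q n g (bb r) (aa r)
  N : ∀ r ∈ St n g s, ∀ j, kk r < j → Q n g (F n g s j).1 (uu r) ∧ Q n g (vv r) (F n g s j).2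
  O : ∀ j G G', Op n g s j G → Op n g s j G' → ¬ Q n g G.2 G'.1
  L : ∀ r ∈ St n g s, ∀ j, kk r < j → ∀ G, Op n g s j G →
    ¬ Q n g (aa r) G.1 ∧ ¬ Q n g G.2 (aa r) ∧ ¬ Q n g (bb r) G.1 ∧ ¬ Q n g G.2 (bb r) ∧
    ¬ Q n g (vv r) G.1 ∧ ¬ Q n g G.2 (uu r)

theorem Inv.trans {s x y z : ℕ} (I : Inv n g s) (hx : x < 2 * s + 2) (hy : y < 2 * s + 2)
    (hz : z < 2 * s + 2) (h1 : Q n g x y) (h2 : Q n g y z) : Q n g x z :=
  Low.le_trans' dec _ I.val _ _ _ hx hy hz h1 h2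

theorem Inv.W {s : ℕ} (I : Inv n g s) (j : ℕ) : Q n g (F n g s j).1 (F n g s j).2 := by
  rcases F_cases (n := n) (g := g) s j with e | ⟨r, hr, e | e⟩
  · rw [e]; exact Q_zero 1
  · rw [e]; exact (I.R r hr).1
  · rw [e]; exact (I.R r hr).2.2.2.1

theorem Inv.D1 {s i j : ℕ} (I : Inv n g s) (h : i ≤ j) :
    Q n g (F n g s j).1 (F n g s i).1 ∧ Q n g (F n g s i).2 (F n g s j).2 := by
  rcases F_chain (n := n) (g := g) (s := s) h with e | ⟨r, hr, _, h2, e⟩
  · rw [e]; exact ⟨Q_refl _, Q_refl _⟩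
  · obtain ⟨a, b, c, d, _⟩ := (bds s).1 r hr
    obtain ⟨f1, f2⟩ := (bds (n := n) (g := g) s).2 j
    obtain ⟨r1, r2, r3, r4, _⟩ := I.R r hr
    obtain ⟨n1, n2⟩ := I.N r hr j h2
    rcases e with e | e
    · rw [e]; exact ⟨n1, I.trans a d f2 r3 n2⟩
    · rw [e]; exact ⟨I.trans f1 c b n1 r2, n2⟩

theorem Inv.D2 {s i j : ℕ} (I : Inv n g s) (h : i ≤ j) {G : ℕ × ℕ} (hG : Op n g s j G) :
    ¬ Q n g (F n g s i).2 G.1 ∧ ¬ Q n g G.2 (F n g s i).1 := by
  rcases F_chain (n := n) (g := g) (s := s) h with e | ⟨r, hr, _, h2, e⟩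
  · rw [e]; exact ⟨I.O j _ _ (Op_F s j) hG, I.O j _ _ hG (Op_F s j)⟩
  · obtain ⟨a, b, c, d, e1, e2⟩ := I.L r hr j h2 G hG
    rcases e with e | e
    · rw [e]; exact ⟨a, e2⟩
    · rw [e]; exact ⟨e1, d⟩

/-- properties of the new pair -/
theorem Inv.pair {s : ℕ} (I : Inv n g s) :
    Q n g (F n g s (K n g s)).1 (A n g s) ∧ Q n g (F n g s (K n g s)).1 (B n g s) ∧
    Q n g (A n g s) (F n g s (K n g s)).2 ∧ Q n g (B n g s) (F n g s (K n g s)).2 ∧
    ¬ Q n g (A n g s) (B n g s) ∧ ¬ Q n g (B n g s) (A n g s) ∧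
    ∀ j, K n g s ≤ j → ∀ G, Op n g s j G → ¬ Q n g (A n g s) G.1 ∧ ¬ Q n g G.2 (A n g s) ∧
      ¬ Q n g (B n g s) G.1 ∧ ¬ Q n g G.2 (B n g s) := by
  obtain ⟨f1, f2⟩ := (bds (n := n) (g := g) s).2 (K n g s)
  have new : ∀ x, 2 * s + 2 ≤ x → x < 2 * s + 4 → Q n g (F n g s (K n g s)).1 x ∧
      Q n g x (F n g s (K n g s)).2 ∧ ∀ j, K n g s ≤ j → ∀ G, Op n g s j G →
        ¬ Q n g x G.1 ∧ ¬ Q n g G.2 x := by
    intro x h1 h2
    refine ⟨?_, ?_, fun j hj G hG => ?_⟩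
    · rw [Q_down (by omega), lo_new h1 h2]; exact Q_refl _
    · rw [Q_up (by omega) (by omega), hi_new h1 h2]; exact Q_refl _
    · obtain ⟨g1, g2⟩ := Op_bd hG
      rw [Q_up (show G.1 < x by omega) (by omega), hi_new h1 h2,
        Q_down (show G.2 < x by omega), lo_new h1 h2]
      exact I.D2 hj hG
  have hvu : ¬ Q n g (F n g s (K n g s)).2 (F n g s (K n g s)).1 :=
    I.O _ _ _ (Op_F _ _) (Op_F _ _)
  have i1 : ¬ Q n g (2 * s + 2) (2 * s + 3) := by
    rw [Q_down (by omega), lo_new (s := s) (by omega) (by omega), Q_up (by omega) (by omega),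
      hi_new (s := s) (by omega) (by omega)]
    exact hvu
  have i2 : ¬ Q n g (2 * s + 3) (2 * s + 2) := by
    rw [Q_up (by omega) (by omega), hi_new (s := s) (by omega) (by omega), Q_down (by omega),
      lo_new (s := s) (by omega) (by omega)]
    exact hvu
  obtain ⟨a1, a2, a3⟩ := new (2 * s + 2) (by omega) (by omega)
  obtain ⟨b1, b2, b3⟩ := new (2 * s + 3) (by omega) (by omega)
  rcases stage_cases (n := n) (g := g) s with ⟨_, _, ⟨a, b, _⟩ | ⟨a, b, _⟩⟩ |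
    ⟨r, hr, _, _, hk, a, b⟩
  · rw [a, b]
    exact ⟨a1, b1, a2, b2, i1, i2, fun j hj G hG =>
      ⟨(a3 j hj G hG).1, (a3 j hj G hG).2, (b3 j hj G hG).1, (b3 j hj G hG).2⟩⟩
  · rw [a, b]
    exact ⟨b1, a1, b2, a2, i2, i1, fun j hj G hG =>
      ⟨(b3 j hj G hG).1, (b3 j hj G hG).2, (a3 j hj G hG).1, (a3 j hj G hG).2⟩⟩
  · rw [a, b]
    obtain ⟨c1, c2, c3, c4, _⟩ := (bds s).1 r hr
    obtain ⟨r1, r2, r3, r4, r5, r6⟩ := I.R r hr
    obtain ⟨n1, n2⟩ := I.N r hr (K n g s) (by omega)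
    refine ⟨I.trans f1 c3 c2 n1 r2, I.trans f1 c3 c1 n1 r1, I.trans c2 c4 f2 r4 n2,
      I.trans c1 c4 f2 r3 n2, r6, r5, fun j hj G hG => ?_⟩
    obtain ⟨l1, l2, l3, l4, _⟩ := I.L r hr j (by omega) G hG
    exact ⟨l3, l4, l1, l2⟩

theorem inv : ∀ s, Inv n g s := by
  intro s
  induction s with
  | zero =>
    have hop : ∀ j G, Op n g 0 j G → G = (0, 1) := by
      rintro j G ⟨m, h1, h2, rfl⟩
      have hT : T n g 0 j = [] := rfl
      rw [hT] at h2 ⊢
      obtain rfl : m = 0 := by simpa using h2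
      rw [gp_zero]
      show foc (geL (j + 1) []) = _
      exact foc_nil
    have hm : ∀ r, ¬ r ∈ St n g 0 := fun r hr => by cases hr
    refine ⟨fun v h1 h2 => absurd h2 (by omega), fun r hr => absurd hr (hm r),
      fun r hr => absurd hr (hm r), ?_, fun r hr => absurd hr (hm r)⟩
    intro j G G' h1 h2
    rw [hop j G h1, hop j G' h2]
    exact not_Q_one
  | succ s I =>
    obtain ⟨p1, p2, p3, p4, p5, p6, p7⟩ := I.pair
    have hvu : ¬ Q n g (F n g s (K n g s)).2 (F n g s (K n g s)).1 :=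
      I.O _ _ _ (Op_F _ _) (Op_F _ _)
    have hFo := Op_F (n := n) (g := g) s (K n g s)
    have O1 : ∀ G G', Op n g (s + 1) (K n g s) G → Op n g (s + 1) (K n g s) G' →
        ¬ Q n g G.2 G'.1 := by
      intro G G' h1 h2
      rcases Op_eq h1 with h1 | rfl | rfl <;> rcases Op_eq h2 with h2 | rfl | rfl
      · exact I.O _ _ _ h1 h2
      · have := I.O _ _ _ h1 hFo
        exact this
      · exact (p7 _ le_rfl G h1).2.2.2
      · exact (p7 _ le_rfl G' h2).1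
      · exact (p7 _ le_rfl _ hFo).1
      · exact p5
      · have := I.O _ _ _ hFo h2
        exact this
      · exact hvu
      · exact (p7 _ le_rfl _ hFo).2.2.2
    refine ⟨?_, ?_, ?_, ?_, ?_⟩
    · intro v h1 h2
      rcases Nat.lt_or_ge v (2 * s + 2) with h3 | h3
      · exact I.val v h1 h3
      · rw [lo_new h3 (by omega), hi_new h3 (by omega)]
        refine ⟨I.W _, fun he => hvu ?_⟩
        rw [he]; exact Q_refl _
    · intro r hr
      rcases mem_succ.1 hr with ⟨h, _⟩ | rfl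
      · exact I.R r h
      · rw [aa_Nw, bb_Nw, uu_Nw, vv_Nw]
        exact ⟨p1, p2, p3, p4, p5, p6⟩
    · intro r hr j hj
      rcases mem_succ.1 hr with ⟨h, h'⟩ | rfl
      · rw [F_gt (by omega)]
        exact I.N r h j hj
      · rw [kk_Nw] at hj
        rw [F_gt hj, uu_Nw, vv_Nw]
        exact I.D1 hj.le
    · intro j G G' h1 h2
      rcases lt_trichotomy j (K n g s) with h | h | h
      · rw [Op_lt h h1, Op_lt h h2]
        exact O1 _ _ (Op_F _ _) (Op_F _ _)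
      · rw [h] at h1 h2
        exact O1 _ _ h1 h2
      · exact I.O j _ _ ((Op_gt h).1 h1) ((Op_gt h).1 h2)
    · intro r hr j hj G hG
      rcases mem_succ.1 hr with ⟨h, h'⟩ | rfl
      · exact I.L r h j hj G ((Op_gt (by omega)).1 hG)
      · rw [kk_Nw] at hj
        have hG' := (Op_gt hj).1 hG
        rw [aa_Nw, bb_Nw, uu_Nw, vv_Nw]
        obtain ⟨q1, q2, q3, q4⟩ := p7 j hj.le G hG'
        obtain ⟨q5, q6⟩ := I.D2 hj.le hG'
        exact ⟨q1, q2, q3, q4, q5, q6⟩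

theorem Q_trans {x y z : ℕ} (h1 : Q n g x y) (h2 : Q n g y z) : Q n g x z :=
  (inv (n := n) (g := g) (x + y + z)).trans (by omega) (by omega) (by omega) h1 h2

theorem Q_antisymm {x y : ℕ} (h1 : Q n g x y) (h2 : Q n g y x) : x = y :=
  Low.le_antisymm' dec _ (inv (n := n) (g := g) (x + y)).val _ _ (by omega) (by omega) h1 h2

end Pool.Agent.W968.SC
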