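import Pool.Agent.W968.SC.Fin
import Pool.Agent.W376.SCqe
import Pool.Agent.W766.SC.Pr

/-!
# Linear extensions with few mind changes are not computably scattered
-/

set_option autoImplicit false

namespace Pool.Agent.W968.SC

open Nat.Partrec (Code)
open Pool.Agent.Results.MP_f7ace6_lc.SharpErshov

/-- bounded search, uniformly in `m` -/
theorem search {q : ℕ → ℕ → Bool} (hq : Computable₂ q) (hex : ∀ m, ∃ t, q m t = true) :
    ∃ f : ℕ → ℕ, Computable f ∧ ∀ m, q m (f m) = true := by
  have h1 : Partrec (fun m : ℕ => Nat.rfind fun d => (Part.some (q m d) : Part Bool)) :=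
    Partrec.rfind (p := fun m d => (Part.some (q m d) : Part Bool)) hq.partrec₂
  have hdom : ∀ m : ℕ, (Nat.rfind fun d => (Part.some (q m d) : Part Bool)).Dom := by
    intro m
    obtain ⟨t, ht⟩ := hex m
    rw [Nat.rfind_dom]
    exact ⟨t, by rw [Part.mem_some_iff, ht], fun _ => trivial⟩
  refine ⟨fun m => (Nat.rfind fun d => (Part.some (q m d) : Part Bool)).get (hdom m), ?_,
    fun m => ?_⟩
  · exact h1.of_eq fun m => (Part.some_get (hdom m)).symm
  · have := Nat.rfind_spec (Part.get_mem (hdom m))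
    rw [Part.mem_some_iff] at this
    exact this.symm

theorem not_sc {n : ℕ} {g : ℕ → ℕ → ℕ → Bool} {L : ℕ → ℕ → Prop} (hSt : Computable (St n g))
    (hL : LinearExtension (fun x y => Le n g x y = true) L)
    (hlim : ∀ x y, ∃ s₀, ∀ s ≥ s₀, (g x y s = true ↔ L x y))
    (hch : ∀ x y, {s | g x y (s + 1) ≠ g x y s}.encard ≤ n) :
    ∃ φ : ℚ → ℕ, Computable (fun n => φ (rat n)) ∧
      ∀ p q : ℚ, p < q → L (φ p) (φ q) ∧ φ p ≠ φ q := by
  obtain ⟨k, s₁, hS⟩ := exists_stab n g
  have hTc : Computable (fun s => T n g s k) := by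
    have h1 : Primrec (fun S : List Rec => eqL k S) :=
      Pool.Agent.W766.SC.Pr.pr_eqL (Primrec.const k) Primrec.id
    exact h1.to_comp.comp hSt
  have hq : Computable₂ (fun m d => decide (m < (T n g (s₁ + d) k).length)) := by
    have h1 : Computable (fun z : ℕ × ℕ => (T n g (s₁ + z.2) k).length) :=
      Primrec.list_length.to_comp.comp (hTc.comp
        (Primrec.nat_add.comp (Primrec.const s₁) Primrec.snd).to_comp)
    have h2 : Computable₂ (fun a b : ℕ => decide (a < b)) := Primrec.nat_lt.decide.to_comp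
    exact h2.comp Computable.fst h1
  obtain ⟨f, hf, hfs⟩ := search hq (by
    intro m
    obtain ⟨s, hs, hm⟩ := T_unbdd hS m
    exact ⟨s - s₁, decide_eq_true (by rw [show s₁ + (s - s₁) = s by omega]; exact hm)⟩)
  have hf' : ∀ m, m < (T n g (s₁ + f m) k).length := fun m => of_decide_eq_true (hfs m)
  set rr : ℕ → Rec := fun m => (T n g (s₁ + f m) k).getD m d0 with hrr
  have hrc : Computable rr := by
    have h1 : Computable (fun m => T n g (s₁ + f m) k) :=
      hTc.comp ((Primrec.nat_add.comp (Primrec.const s₁) Primrec.id).to_comp.comp hf)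
    exact (Primrec.list_getD d0).to_comp.comp h1 Computable.id
  have hmem : ∀ m, rr m ∈ T n g (s₁ + f m) k := by
    intro m
    rw [hrr]
    simp only
    rw [List.getD_eq_getElem _ _ (hf' m)]
    exact List.getElem_mem _
  have hst : ∀ m, rr m ∈ St n g (s₁ + f m) ∧ kk (rr m) = k := fun m => mem_T.1 (hmem m)
  have hR := fun m => (inv (n := n) (g := g) (s₁ + f m)).R (rr m) (hst m).1
  have hab : ∀ m, L (aa (rr m)) (bb (rr m)) := by
    intro m
    exact lim_pair hL.total hlim ⟨s₁ + f m, fun s' hs' =>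
      ori_final hS hch (Nat.le_add_right _ _) (hst m).1 (hst m).2 s' hs'⟩
  -- the structure of the tree
  have hch2 : ∀ m i, m < i → ∃ X : List Rec, X.getD m d0 = rr m ∧
      (uu (rr i), vv (rr i)) = gp (F n g s₁ (k + 1)) X i := by
    intro m i hmi
    have h1 := tree (n := n) (g := g) (s₁ + f i) k i (hf' i)
    refine ⟨T n g (s₁ + f i) k, ?_, ?_⟩
    · -- compare at a common stage
      have a1 := T_stable hS (Nat.le_add_right s₁ (f i)) (lt_trans hmi (hf' i))
        (s₁ + f i + f m) (by omega)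
      have a2 := T_stable hS (Nat.le_add_right s₁ (f m)) (hf' m) (s₁ + f i + f m) (by omega)
      rw [← a1.2, a2.2]
    · rw [← F_const hS (Nat.le_add_right s₁ (f i))]
      exact h1
  have hodd : ∀ m, (uu (rr (2 * m + 1)), vv (rr (2 * m + 1))) = (uu (rr m), aa (rr m)) := by
    intro m
    obtain ⟨X, h1, h2⟩ := hch2 m (2 * m + 1) (by omega)
    rw [h2]
    unfold gp
    rw [if_neg (by omega), if_pos (by omega), show (2 * m + 1 - 1) / 2 = m by omega, h1]
  have heven : ∀ m, (uu (rr (2 * m + 2)), vv (rr (2 * m + 2))) = (bb (rr m), vv (rr m)) := by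
    intro m
    obtain ⟨X, h1, h2⟩ := hch2 m (2 * m + 2) (by omega)
    rw [h2]
    unfold gp
    rw [if_neg (by omega), if_neg (by omega), show (2 * m + 2 - 1) / 2 = m by omega, h1]
  have hne : ∀ m, aa (rr m) ≠ bb (rr m) := fun m => ((bds (s₁ + f m)).1 (rr m) (hst m).1).2.2.2.2
  refine Pool.Agent.W376.SCqe.tree_emb hL.refl hL.trans hL.antisymm (fun m => aa (rr m))
    (fun m => bb (rr m)) (fun m => uu (rr m)) (fun m => vv (rr m)) ?_ (fun m => hL.extend _ _ (hR m).1)
    hab hne (fun m => hL.extend _ _ (hR m).2.2.2.1) (fun m => (Prod.mk.inj (hodd m)).1)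
    (fun m => (Prod.mk.inj (hodd m)).2) (fun m => (Prod.mk.inj (heven m)).1)
    (fun m => (Prod.mk.inj (heven m)).2) ?_ ?_
  · have h1 : Primrec (fun r : Rec => aa r) := Primrec.fst.comp Primrec.snd
    exact h1.to_comp.comp hrc
  · intro m h
    have h1 : uu (rr m) = aa (rr m) := hL.antisymm _ _ (hL.extend _ _ (hR m).1) h
    have h2 := (hR m).2.1
    rw [h1] at h2
    exact (hR m).2.2.2.2.1 h2
  · intro m h
    have h1 : L (bb (rr m)) (aa (rr m)) :=
      hL.trans _ _ _ (hL.extend _ _ (hR m).2.2.2.1) h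
    exact hne m (hL.antisymm _ _ (hab m) h1)

end Pool.Agent.W968.SC
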